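import Pool.Agent.K3h16.MI.Stm

/-!
Moebius invariance of the nu-weighted energy (MP_34b615_gt): continuation of the kernels on `M`
(brick GOODM).
-/

set_option autoImplicit false
set_option linter.style.haveILetI false

open MeasureTheory Set Filter Topology
open scoped ContDiff

namespace Pool.Agent.K3h3.MI

open Pool.Agent.K3h16.MI

theorem Good.congr {m : ℕ} {J₁ J₂ : ℝ → ℂ} (h : Good m J₁) (e : ∀ s : ℝ, 4 < s → J₂ s = J₁ s) :
    Good m J₂ := by
  obtain ⟨A, h1, h2, h3⟩ := h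
  exact ⟨A, h1, h2, fun s hs => by rw [e s hs, h3 s hs]⟩

theorem Good.add {m : ℕ} {J₁ J₂ : ℝ → ℂ} (h : Good m J₁) (h' : Good m J₂) :
    Good m (fun s => J₁ s + J₂ s) := by
  obtain ⟨A, h1, h2, h3⟩ := h
  obtain ⟨A', h1', h2', h3'⟩ := h'
  refine ⟨fun z => A z + A' z, h1.add h1', fun ho => ?_, fun s hs => ?_⟩
  · show A _ + A' _ = 0
    rw [h2 ho, h2' ho, add_zero]
  · show pm m s * (J₁ s + J₂ s) = A s + A' s
    rw [mul_add, h3 s hs, h3' s hs]

theorem Good.zero {m : ℕ} : Good m (fun _ => 0) :=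
  ⟨fun _ => 0, differentiableOn_const _, fun _ => rfl, fun _ _ => mul_zero _⟩

theorem Good.sum {m : ℕ} {ι : Type} (S : Finset ι) (J₁ : ι → ℝ → ℂ) (h : ∀ i, Good m (J₁ i)) :
    Good m (fun s => ∑ i ∈ S, J₁ i s) := by
  classical
  induction S using Finset.induction_on with
  | empty =>
    refine Good.congr (Good.zero (m := m)) fun s _ => ?_
    simp
  | insert a S ha ih =>
    refine Good.congr (Good.add (h a) ih) fun s _ => ?_
    rw [Finset.sum_insert ha]

section basic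

variable {n : ℕ} {M : Set (E n)} {v : Measure (E n)}

theorem int_prod (hM : IsCompact M) [IsFiniteMeasure v] (hv : v Mᶜ = 0)
    {g : E n → E n → ℂ} (hg : ContinuousOn (fun p : E n × E n => g p.1 p.2) (M ×ˢ M)) :
    Integrable (fun p : E n × E n => g p.1 p.2) (v.prod v) := by
  have hae : ∀ᵐ x ∂v, x ∈ M := by
    rw [ae_iff]
    exact hv
  have h1 : v.restrict M = v := Measure.restrict_eq_self_of_ae_mem hae
  have h2 : (v.prod v).restrict (M ×ˢ M) = v.prod v := by
    rw [← Measure.prod_restrict, h1]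
  rw [← h2]
  exact hg.integrableOn_compact (hM.prod hM)

theorem int_one (hM : IsCompact M) [IsFiniteMeasure v] (hv : v Mᶜ = 0)
    {g : E n → ℂ} (hg : ContinuousOn g M) : Integrable g v := by
  have hae : ∀ᵐ x ∂v, x ∈ M := by
    rw [ae_iff]
    exact hv
  have h1 : v.restrict M = v := Measure.restrict_eq_self_of_ae_mem hae
  rw [← h1]
  exact hg.integrableOn_compact hM

theorem int_int (hM : IsCompact M) [IsFiniteMeasure v] (hv : v Mᶜ = 0)
    {g : E n → E n → ℂ} (hg : ContinuousOn (fun p : E n × E n => g p.1 p.2) (M ×ˢ M)) :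
    ∫ x, ∫ y, g x y ∂v ∂v = ∫ p, g p.1 p.2 ∂(v.prod v) :=
  (integral_prod _ (int_prod hM hv hg)).symm

end basic

theorem t_GOODM (hPOU : S_POU) (hCHI : S_CHI) (hKD : S_KD) (hCONT : S_CONT) (hFIN : S_FIN)
    (hON : S_ON) (hOFF : S_OFF) : S_GOODM := by
  intro m n M e v hm hO U c hU hMU hc hcd α
  haveI := hFIN m n M e v hO
  have hM := hO.compact
  have hv := hO.vol_compl
  obtain ⟨K, γ, χ, η, W, δ, hW, hMW, hδ, hsum, hk⟩ := hPOU m n M e v hO
  choose hpar hor hχ hη hsχ hsη hoff hχη _ using hk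
  have hγM : ∀ k u, γ k u ∈ M := by
    intro k u
    obtain ⟨V, -, hV⟩ := (hpar k).open_range
    have : γ k u ∈ M ∩ V := by
      rw [← hV]
      exact mem_range_self u
    exact this.1
  have hcM : ContinuousOn (fun p : ℂ × E n × E n => c p.1 p.2.1 p.2.2) (univ ×ˢ (M ×ˢ M)) :=
    hc.continuousOn.mono (prod_mono le_rfl (prod_mono hMU hMU))
  have hcs : ∀ s : ℂ, ContinuousOn (fun p : E n × E n => c s p.1 p.2) (M ×ˢ M) := by
    intro s
    have h1 : ContinuousOn (fun p : E n × E n => ((s, p) : ℂ × E n × E n)) (M ×ˢ M) :=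
      (continuous_const.prodMk continuous_id).continuousOn
    exact hcM.comp h1 (fun p hp => ⟨mem_univ _, hp⟩)
  -- the kernel
  let kk : ℝ → E n → E n → ℂ := fun s x y =>
    ((kdet α (e x) (e y) (x - y) * ‖x - y‖ ^ s : ℝ) : ℂ)
  have hkk : ∀ s : ℝ, 4 < s → ContinuousOn (fun p : E n × E n => kk s p.1 p.2) (M ×ˢ M) := by
    intro s hs
    exact Complex.continuous_ofReal.comp_continuousOn (hCONT m n M e v hO α s (by linarith))
  -- decomposition
  have hdec : ∀ s : ℝ, 4 < s → J α e v (c s) s =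
      ∑ k, (J α e v (fun x y => (χ k x * η k y : ℝ) * c s x y) s +
        J α e v (fun x y => (χ k x * (1 - η k y) : ℝ) * c s x y) s) := by
    intro s hs
    have hA : ∀ k, ContinuousOn (fun p : E n × E n =>
        ((χ k p.1 * η k p.2 : ℝ) : ℂ) * c s p.1 p.2 * kk s p.1 p.2) (M ×ˢ M) := by
      intro k
      refine ContinuousOn.mul (ContinuousOn.mul ?_ (hcs s)) (hkk s hs)
      refine Continuous.continuousOn (Complex.continuous_ofReal.comp ?_)
      exact ((hχ k).continuous.comp continuous_fst).mul ((hη k).continuous.comp continuous_snd)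
    have hB : ∀ k, ContinuousOn (fun p : E n × E n =>
        ((χ k p.1 * (1 - η k p.2) : ℝ) : ℂ) * c s p.1 p.2 * kk s p.1 p.2) (M ×ˢ M) := by
      intro k
      refine ContinuousOn.mul (ContinuousOn.mul ?_ (hcs s)) (hkk s hs)
      refine Continuous.continuousOn (Complex.continuous_ofReal.comp ?_)
      exact ((hχ k).continuous.comp continuous_fst).mul
        (continuous_const.sub ((hη k).continuous.comp continuous_snd))
    have h0 : J α e v (c s) s = ∫ p, c s p.1 p.2 * kk s p.1 p.2 ∂(v.prod v) :=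
      int_int hM hv ((hcs s).mul (hkk s hs))
    have h1 : ∀ k, J α e v (fun x y => (χ k x * η k y : ℝ) * c s x y) s =
        ∫ p, ((χ k p.1 * η k p.2 : ℝ) : ℂ) * c s p.1 p.2 * kk s p.1 p.2 ∂(v.prod v) :=
      fun k => int_int (g := fun x y => ((χ k x * η k y : ℝ) : ℂ) * c s x y * kk s x y) hM hv (hA k)
    have h2 : ∀ k, J α e v (fun x y => (χ k x * (1 - η k y) : ℝ) * c s x y) s =
        ∫ p, ((χ k p.1 * (1 - η k p.2) : ℝ) : ℂ) * c s p.1 p.2 * kk s p.1 p.2 ∂(v.prod v) :=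
      fun k => int_int (g := fun x y => ((χ k x * (1 - η k y) : ℝ) : ℂ) * c s x y * kk s x y) hM hv
        (hB k)
    have iA := fun k => int_prod (g := fun x y => ((χ k x * η k y : ℝ) : ℂ) * c s x y * kk s x y)
      hM hv (hA k)
    have iB := fun k => int_prod
      (g := fun x y => ((χ k x * (1 - η k y) : ℝ) : ℂ) * c s x y * kk s x y) hM hv (hB k)
    rw [h0]
    simp only [h1, h2]
    have h3 : ∀ k, (∫ p, ((χ k p.1 * η k p.2 : ℝ) : ℂ) * c s p.1 p.2 * kk s p.1 p.2 ∂(v.prod v)) +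
        (∫ p, ((χ k p.1 * (1 - η k p.2) : ℝ) : ℂ) * c s p.1 p.2 * kk s p.1 p.2 ∂(v.prod v)) =
        ∫ p, (((χ k p.1 * η k p.2 : ℝ) : ℂ) * c s p.1 p.2 * kk s p.1 p.2 +
          ((χ k p.1 * (1 - η k p.2) : ℝ) : ℂ) * c s p.1 p.2 * kk s p.1 p.2) ∂(v.prod v) :=
      fun k => (integral_add (iA k) (iB k)).symm
    rw [Finset.sum_congr rfl fun k _ => h3 k]
    have h5 : ∫ p, ∑ k, (((χ k p.1 * η k p.2 : ℝ) : ℂ) * c s p.1 p.2 * kk s p.1 p.2 +
          ((χ k p.1 * (1 - η k p.2) : ℝ) : ℂ) * c s p.1 p.2 * kk s p.1 p.2) ∂(v.prod v) =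
        ∑ k, ∫ p, (((χ k p.1 * η k p.2 : ℝ) : ℂ) * c s p.1 p.2 * kk s p.1 p.2 +
          ((χ k p.1 * (1 - η k p.2) : ℝ) : ℂ) * c s p.1 p.2 * kk s p.1 p.2) ∂(v.prod v) :=
      integral_finsetSum _ (fun k _ => (iA k).add (iB k))
    rw [← h5]
    refine integral_congr_ae ?_
    have hae : ∀ᵐ x ∂v, x ∈ M := by
      rw [ae_iff]
      exact hv
    have hae2 : ∀ᵐ p ∂(v.prod v), p.1 ∈ M := by
      exact Measure.quasiMeasurePreserving_fst.ae hae
    filter_upwards [hae2] with p hp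
    have h4 : ∀ k, (((χ k p.1 * η k p.2 : ℝ) : ℂ) * c s p.1 p.2 * kk s p.1 p.2 +
          ((χ k p.1 * (1 - η k p.2) : ℝ) : ℂ) * c s p.1 p.2 * kk s p.1 p.2) =
          ((χ k p.1 : ℝ) : ℂ) * (c s p.1 p.2 * kk s p.1 p.2) := by
      intro k
      push_cast
      ring
    rw [Finset.sum_congr rfl fun k _ => h4 k, ← Finset.sum_mul, ← Complex.ofReal_sum,
      hsum p.1 (hMW hp), Complex.ofReal_one, one_mul]
  refine Good.congr ?_ hdec
  refine Good.sum Finset.univ _ fun k => Good.add ?_ ?_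
  · -- near the diagonal
    let cc : ℂ → E m → E m → ℂ := fun z u u' =>
      ((χ k (γ k u) * η k (γ k u') : ℝ) : ℂ) * c z (γ k u) (γ k u')
    have hinj := (hpar k).embedding.injective
    have hγs := (hpar k).smooth
    obtain ⟨R₁, hR₁⟩ : ∃ R : ℝ, ∀ u, R < ‖u‖ → χ k (γ k u) = 0 := by
      obtain ⟨R, hR⟩ := (hsχ k).isCompact.isBounded.exists_norm_le
      refine ⟨R, fun u hu => ?_⟩
      by_contra h
      exact absurd (hR u (subset_tsupport _ h)) (not_le.2 hu)
    obtain ⟨R₂, hR₂⟩ : ∃ R : ℝ, ∀ u, R < ‖u‖ → η k (γ k u) = 0 := by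
      obtain ⟨R, hR⟩ := (hsη k).isCompact.isBounded.exists_norm_le
      refine ⟨R, fun u hu => ?_⟩
      by_contra h
      exact absurd (hR u (subset_tsupport _ h)) (not_le.2 hu)
    have hcc1 : ContDiff ℝ ∞ (fun p : ℂ × E m × E m => cc p.1 p.2.1 p.2.2) := by
      have e1 : ContDiff ℝ ∞ (fun p : ℂ × E m × E m => γ k p.2.1) :=
        hγs.comp (contDiff_fst.comp contDiff_snd)
      have e2 : ContDiff ℝ ∞ (fun p : ℂ × E m × E m => γ k p.2.2) :=
        hγs.comp (contDiff_snd.comp contDiff_snd)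
      refine ContDiff.mul ?_ ?_
      · refine Complex.ofRealCLM.contDiff.comp ?_
        exact ((hχ k).comp e1).mul ((hη k).comp e2)
      · have e3 : ContDiff ℝ ∞ (fun p : ℂ × E m × E m =>
          ((p.1, γ k p.2.1, γ k p.2.2) : ℂ × E n × E n)) :=
          contDiff_fst.prodMk (e1.prodMk e2)
        rw [← contDiffOn_univ] at e3 ⊢
        refine hc.comp e3 ?_
        intro p _
        exact ⟨mem_univ _, hMU (hγM k _), hMU (hγM k _)⟩
    have hcc2 : ∀ u u', Differentiable ℂ (fun z => cc z u u') := by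
      intro u u'
      exact (differentiable_const _).mul (hcd _ (hMU (hγM k u)) _ (hMU (hγM k u')))
    have hcc3 : ∀ z u u', (max R₁ R₂ < ‖u‖ ∨ max R₁ R₂ < ‖u'‖) → cc z u u' = 0 := by
      intro z u u' h
      rcases h with h | h
      · show ((χ k (γ k u) * η k (γ k u') : ℝ) : ℂ) * c z (γ k u) (γ k u') = 0
        rw [hR₁ u (lt_of_le_of_lt (le_max_left _ _) h)]
        simp
      · show ((χ k (γ k u) * η k (γ k u') : ℝ) : ℂ) * c z (γ k u) (γ k u') = 0
        rw [hR₂ u' (lt_of_le_of_lt (le_max_right _ _) h)]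
        simp
    refine Good.congr (hON m n (γ k) hm hγs hinj (hpar k).immersion cc (max R₁ R₂) hcc1 hcc2 hcc3 α)
      fun s hs => ?_
    -- the integral in the parametrization
    unfold J
    rw [(hCHI m n M e v hO (γ k) (hpar k) (fun x => ∫ y, ((χ k x * η k y : ℝ) : ℂ) * c s x y *
      ((kdet α (e x) (e y) (x - y) * ‖x - y‖ ^ s : ℝ) : ℂ) ∂v) (by
        intro x hx hx'
        rw [(hoff k x hx hx').1]
        simp)).1]
    refine integral_congr_ae (ae_of_all _ fun u => ?_)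
    show (jac (γ k) u : ℂ) * (∫ y, ((χ k (γ k u) * η k y : ℝ) : ℂ) * c s (γ k u) y *
      ((kdet α (e (γ k u)) (e y) (γ k u - y) * ‖γ k u - y‖ ^ s : ℝ) : ℂ) ∂v) = _
    rw [(hCHI m n M e v hO (γ k) (hpar k) (fun y => ((χ k (γ k u) * η k y : ℝ) : ℂ) * c s (γ k u) y *
      ((kdet α (e (γ k u)) (e y) (γ k u - y) * ‖γ k u - y‖ ^ s : ℝ) : ℂ)) (by
        intro x hx hx'
        rw [(hoff k x hx hx').2]
        simp)).1, ← integral_const_mul]
    refine integral_congr_ae (ae_of_all _ fun u' => ?_)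
    have hKD' := (hKD m n (e (γ k u)) (e (γ k u')) (pd (γ k) u) (pd (γ k) u')
      (hO.orthonormal _ (hγM k u)) (hO.orthonormal _ (hγM k u')) (hor k u) (hor k u')).2 α
      (γ k u - γ k u')
    show (jac (γ k) u : ℂ) * ((jac (γ k) u' : ℂ) * (((χ k (γ k u) * η k (γ k u') : ℝ) : ℂ) *
      c s (γ k u) (γ k u') * ((kdet α (e (γ k u)) (e (γ k u')) (γ k u - γ k u') *
        ‖γ k u - γ k u'‖ ^ s : ℝ) : ℂ))) = ((χ k (γ k u) * η k (γ k u') : ℝ) : ℂ) *
      c s (γ k u) (γ k u') * ((kdet α (pd (γ k) u) (pd (γ k) u') (γ k u - γ k u') *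
        ‖γ k u - γ k u'‖ ^ s : ℝ) : ℂ)
    rw [hKD']
    unfold jac
    push_cast
    ring
  · -- away from the diagonal
    refine hOFF m n M e v hO c (fun x y => χ k x * (1 - η k y)) δ hδ hcM
      (fun x hx y hy => hcd x (hMU hx) y (hMU hy)) ?_ ?_ α
    · refine Continuous.continuousOn ?_
      exact ((hχ k).continuous.comp continuous_fst).mul
        (continuous_const.sub ((hη k).continuous.comp continuous_snd))
    · intro x hx y hy hxy
      by_cases h : χ k x = 0
      · show χ k x * (1 - η k y) = 0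
        rw [h, zero_mul]
      · show χ k x * (1 - η k y) = 0
        rw [hχη k x hx y hy hxy h, sub_self, mul_zero]

end Pool.Agent.K3h3.MI
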